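import Pool.Agent.TH467.OC.DisjCount

/-!
# Two disjoint perfect matchings in `r`-graphs with few bad odd sets

Multigraphs with edge set `E`, the ends of the edge `e` are `a e` and `b e`.

* `delta a b X`: the cut `δ(X)`, the edges with exactly one end in `X`.
* `PM a b M`: `M` is a perfect matching.
* `RG r a b`: an `r`-graph: loopless, `r`-regular, at least `r` edges leave every odd set of vertices.
* `badSets r a b`: the odd sets `X` which induce a connected subgraph, such that some perfect matching has
  at least `|δ(X)| - r + 2` edges in `δ(X)`.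

Proof.  If `G - M` has no perfect matching, Tutte's theorem gives a set `T` and at least `|T| + 2` disjoint
odd components of `G - M - T`; for these sets `X` the numbers `|M ∩ δ(X)| - 1 - (|δ(X)| - r)` add up to at
least `2 (r - 1)`, while the average over the perfect matchings `M` (Edmonds: all edges have probability
`1 / r`) of `(|M ∩ δ(X)| - 1) / (|δ(X)| - 1)` is `(|δ(X)| - r) / (r (|δ(X)| - 1))`.
-/

set_option autoImplicit false

namespace Pool.Agent.Results.MP_6b611a_co.FewOddSets

open Finset Pool.Agent.TH467.OC

/-- An `r`-graph, `r ≥ 2`, has two disjoint perfect matchings, if the bad sets `X` satisfy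
`∑ (|δ(X)| - r) / (|δ(X)| - 1) < 2 r`; in particular if at most `2 r` bad sets have `r + 2` or more
leaving edges, or if, for some `t`, all bad sets have at most `r + t` leaving edges, and those with
`r + 2` or more are fewer than `2 r (r + t - 1) / t` (for `t = 2`: fewer than `r (r + 1)`). -/
theorem result {V E : Type} [Fintype V] [DecidableEq V] [Fintype E] [DecidableEq E]
    (r : ℕ) (hr : 2 ≤ r) (a b : E → V) (hG : RG r a b)
    (few : ∑ X ∈ badSets r a b, (((delta a b X).card : ℝ) - r) / ((delta a b X).card - 1) < 2 * r ∨
      ((badSets r a b).filter fun X => r + 2 ≤ (delta a b X).card).card ≤ 2 * r ∨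
      ∃ t : ℕ, (∀ X ∈ badSets r a b, (delta a b X).card ≤ r + t) ∧
        ((badSets r a b).filter fun X => r + 2 ≤ (delta a b X).card).card * t + 2 * r
          < 2 * r * (r + t)) :
    ∃ M₁ M₂, PM a b M₁ ∧ PM a b M₂ ∧ Disjoint M₁ M₂ :=
  disjoint_of_few hr hG few

end Pool.Agent.Results.MP_6b611a_co.FewOddSets
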