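import Pool.Agent.TH435.BF.Star2

/-!
# Disjoint perfect matchings in `r`-graphs with a stable set of `n / 2 - 1` vertices

`MGraph r ends`: loopless `r`-regular multigraph on `Fin n` (edges `Fin m`, the ends of `e` are
`ends e`) with at least `r` edges leaving every odd vertex set (an `r`-graph).
-/

set_option autoImplicit false

namespace Pool.Agent.Results.MP_6b611a_co.StableSet

open H76FC Finset

/-- Let `G` be an `r`-graph with `n` vertices and `B` a stable set of `n / 2 - 1` vertices, and let `x`
be a vertex outside `B`.  If `k` is the number of edges which join `x` to vertices outside `B`, then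
`G` has `k` pairwise disjoint perfect matchings. -/
theorem result {r n m : ℕ} (ends : Fin m → Sym2 (Fin n)) (hG : MGraph r ends)
    (B : Finset (Fin n)) (hn : n = 2 * B.card + 2)
    (hB : ∀ e u v, ends e = s(u, v) → u ∈ B → v ∉ B) (x : Fin n) (hx : x ∉ B) :
    ∃ M : Fin ({e : Fin m | ∃ v, v ∉ B ∧ ends e = s(x, v)}.ncard) → Set (Fin m),
      (∀ i v, ∃! e, e ∈ M i ∧ v ∈ ends e) ∧ ∀ i j, i ≠ j → Disjoint (M i) (M j) := by
  classical
  obtain ⟨hp, _⟩ := toR r n m ends hG
  have hk : ∑ a ∈ Bᶜ, mult ends x a = {e : Fin m | ∃ v, v ∉ B ∧ ends e = s(x, v)}.ncard := by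
    have h1 : {e : Fin m | ∃ v, v ∉ B ∧ ends e = s(x, v)} =
        (((Bᶜ).biUnion fun v => univ.filter fun e => ends e = s(x, v) : Finset (Fin m)) :
          Set (Fin m)) := by
      ext e
      simp
    rw [h1, Set.ncard_coe_finset, card_biUnion]
    · rfl
    · intro w _ w' _ hne
      rw [Function.onFun, Finset.disjoint_left]
      intro e he he'
      simp only [mem_filter, mem_univ, true_and] at he he'
      exact hne (Sym2.congr_right.1 (he.symm.trans he'))
  obtain ⟨q, h1, h2, h3, h4⟩ := Pool.Agent.TH435.BF.star_col (A := Bᶜ) (B := B) hp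
    disjoint_compl_left (fun y => by
      by_cases hy : y ∈ B
      · exact Or.inr hy
      · exact Or.inl (mem_compl.2 hy))
    (fun y hy z hz => by
      unfold mult
      rw [card_eq_zero, filter_eq_empty_iff]
      intro e _ he
      exact hB e y z he hy hz)
    (by rw [card_compl, Fintype.card_fin]; omega) (mem_compl.2 hx)
  rw [← hk]
  exact Pool.Agent.TH435.BF.trans ends q h1 h2 h3 h4

end Pool.Agent.Results.MP_6b611a_co.StableSet
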